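import Pool.Agent.R497.TB.Defs

set_option autoImplicit false

/-! The main case over boxes: assembly. -/

namespace Pool.Agent.R497.TB

open MeasureTheory Filter Finset
open Pool.Agent.Y957.MC (IsFlow flowInv smo box bavg)
open Pool.Agent.R497.TD (NiceG S_JBD)

universe u

lemma sep_update {k : ℕ} (p : Fin k → Polynomial ℝ) (i : Fin k) (m : Fin k → ℕ) (v : ℕ) :
    sep p (Function.update m i v) = (p i).eval (v : ℝ) + ∑ l ∈ univ.erase i, (p l).eval (m l : ℝ) := by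
  unfold sep
  rw [← Finset.add_sum_erase univ _ (mem_univ i), Function.update_self]
  congr 1
  refine sum_congr rfl fun l hl => ?_
  rw [Function.update_of_ne (ne_of_mem_erase hl)]

/-- the mean square bound over the grid boxes, normalized -/
theorem bjcore (hE : S_ENUM) (hJ : S_JBD.{u}) (hD : S_BD.{u}) {X : Type u} [MeasurableSpace X]
    {μ : Measure X} [IsProbabilityMeasure μ] {σ : ℝ → X → X} (hσ : IsFlow μ σ) {g : X → ℝ} (hg : NiceG σ g)
    (hg1 : ∀ x, |g x| ≤ 1) {k d : ℕ} {p : Fin k → Polynomial ℝ} (i : Fin k) (hd : 0 < d)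
    (hp : (p i).natDegree = d) (hlc : 0 < (p i).leadingCoeff) {B : (Fin k → ℕ) → ℝ → X → ℝ}
    (hBm : ∀ m, Measurable fun q : ℝ × X => B m q.1 q.2) (hB1 : ∀ m a x, |B m a x| ≤ 1)
    (hBl : ∀ m, (∀ l, 1 ≤ m l) → ∀ a a' x, |B m a x - B m a' x| ≤
      1 * ((Finset.univ.sup m : ℕ) : ℝ) ^ (d - 1) * |a - a'|) (j : ℕ) :
    ∃ (C' : ℝ) (T₀ : ℕ), ∀ t : Fin k → ℕ, T₀ ≤ t i → (∀ l, t l ≤ t i) → ∫ a in (1 : ℝ)..2, ∫ x,
      (ravg (gbx (8 * (k + 1)) t) fun m => if cut j (gbx (8 * (k + 1)) t i) < m i then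
        B m a x * g (σ (a * sep p m) x) else 0) ^ 2 ∂μ ≤ C' / ((t i : ℝ) + 1) ^ (k + 1) := by
  obtain ⟨C, K₀, hC, hBD⟩ := hD X μ σ g (p i) k j hσ hg hg1 (by rw [hp]; exact hd) hlc
  rw [hp] at hBD
  refine ⟨2 + C + 5 + 3, max K₀ 1, ?_⟩
  intro t ht hl
  obtain ⟨K, hK⟩ : ∃ K : ℕ, K = t i + 1 := ⟨_, rfl⟩
  have hK0 : K₀ ≤ K := by have := le_max_left K₀ 1; omega
  have hK2 : 2 ≤ K := by have := le_max_right K₀ 1; omega
  have hKc : ((t i : ℝ) + 1) = (K : ℝ) := by rw [hK]; push_cast; ring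
  rw [hKc]
  obtain ⟨q, hq⟩ : ∃ q : ℕ, q = 8 * (k + 1) := ⟨_, rfl⟩
  obtain ⟨P, hP⟩ : ∃ P : ℕ, P = k + 1 := ⟨_, rfl⟩
  rw [← hq] at hBD ⊢
  rw [← hP] at hBD ⊢
  have hMi : gbx q t i = K ^ q := by unfold gbx; rw [hK]
  have hMl : ∀ l, gbx q t l ≤ K ^ q := by
    intro l
    unfold gbx
    rw [hK]
    exact Nat.pow_le_pow_left (by have := hl l; omega) _
  obtain ⟨S, en, hS, hSM, hen, hen1, hsum⟩ := hE k i (gbx q t) (fun l => by unfold gbx; positivity)
  rw [hMi] at hSM hen hen1 hsum ⊢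
  have hKR : (2 : ℝ) ≤ K := by exact_mod_cast hK2
  have hKp : (0 : ℝ) < K := by linarith
  have hK1 : (1 : ℝ) ≤ K := by linarith
  set Q : ℕ → ℝ := fun n => sep p (en n) with hQ
  have hKq : 0 < K ^ q := by positivity
  have hQl : ∀ u w, u < S → w < K ^ q →
      Q (u * K ^ q + w) = Q (u * K ^ q) + ((p i).eval ((w : ℝ) + 1) - (p i).eval 1) := by
    intro u w hu hw
    have h1 := hen u w hu hw
    have h2 := hen u 0 hu hKq
    rw [add_zero] at h2
    simp only [hQ]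
    rw [h1]
    have h3 : sep p (en (u * K ^ q)) = sep p (Function.update (en (u * K ^ q)) i (0 + 1)) := by rw [← h2]
    rw [h3, sep_update, sep_update, zero_add]
    push_cast
    ring
  set L : ℕ := cut j (K ^ q) with hL
  set gn : ℕ → X → ℝ := fun n x => if L ≤ n % K ^ q then g x else 0 with hgn
  have hgm : Measurable g := hg.1
  have hgnm : ∀ n, Measurable (gn n) := by
    intro n
    simp only [hgn]
    split_ifs
    · exact hgm
    · exact measurable_const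
  have hgn1 : ∀ n x, |gn n x| ≤ 1 := by
    intro n x
    simp only [hgn]
    split_ifs
    · exact hg1 x
    · simp
  have key := hJ X μ σ gn (fun n => B (en n)) Q (S * K ^ q) (1 / (K : ℝ) ^ (q * (d - 1) + P))
    (1 / (K : ℝ) ^ (q * (d - 1) + 3 * P)) (1 / (K : ℝ) ^ P) ((K : ℝ) ^ (q * (d - 1))) (C / (K : ℝ) ^ (2 * P))
    hσ hgnm hgn1 (fun n => hBm (en n)) (fun n => hB1 (en n))
    (fun n hn a a' x => by
      refine (hBl (en n) (fun l => (hen1 n hn l).1) a a' x).trans ?_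
      rw [one_mul, pow_mul]
      have h1 : ((Finset.univ.sup (en n) : ℕ) : ℝ) ≤ (K : ℝ) ^ q := by
        have : Finset.univ.sup (en n) ≤ K ^ q := Finset.sup_le fun l _ => ((hen1 n hn l).2).trans (hMl l)
        exact_mod_cast this
      gcongr)
    (by positivity) (by positivity)
    (by
      rw [div_le_div_iff₀ (by positivity) (by norm_num)]
      have h1 : (K : ℝ) ^ 1 ≤ (K : ℝ) ^ (q * (d - 1) + P) := pow_le_pow_right₀ hK1 (by omega)
      rw [pow_one] at h1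
      linarith)
    (by positivity) (by positivity) (by positivity) (by positivity)
    (fun δ h1 h2 => by
      have h3 := hBD K S Q δ hK0 hS hQl h1 h2
      refine le_trans (le_of_eq ?_) h3
      refine intervalIntegral.integral_congr fun a _ => ?_
      refine integral_congr_ae (ae_of_all _ fun x => ?_)
      simp only
      congr 2
      refine sum_congr rfl fun n _ => ?_
      simp only [hgn]
      split_ifs
      · rfl
      · rw [zero_mul])
  have e0 : ∀ a : ℝ, ∀ x : X, ((1 / ((S * K ^ q : ℕ) : ℝ)) * ∑ n ∈ range (S * K ^ q), B (en n) a x *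
      gn n (σ (a * Q n) x)) = ravg (gbx q t) fun m => if L < m i then B m a x * g (σ (a * sep p m) x) else 0 := by
    intro a x
    unfold ravg
    rw [hSM, ← hSM, ← hsum, hSM]
    congr 1
    refine sum_congr rfl fun n hn => ?_
    rw [mem_range] at hn
    have hu : n / K ^ q < S := by
      rw [Nat.div_lt_iff_lt_mul hKq]
      rwa [← hSM] at hn
    have hw : n % K ^ q < K ^ q := Nat.mod_lt _ hKq
    have h1 := hen (n / K ^ q) (n % K ^ q) hu hw
    have h2 : n / K ^ q * K ^ q + n % K ^ q = n := Nat.div_add_mod' n (K ^ q)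
    rw [h2] at h1
    have h3 : en n i = n % K ^ q + 1 := by rw [h1, Function.update_self]
    rw [h3]
    simp only [hgn, hQ]
    by_cases h4 : L ≤ n % K ^ q
    · rw [if_pos h4, if_pos (by omega)]
    · rw [if_neg h4, if_neg (by omega), mul_zero]
  have e1 : ∫ a in (1 : ℝ)..2, ∫ x, ((1 / ((S * K ^ q : ℕ) : ℝ)) * ∑ n ∈ range (S * K ^ q), B (en n) a x *
      gn n (σ (a * Q n) x)) ^ 2 ∂μ = ∫ a in (1 : ℝ)..2, ∫ x,
      (ravg (gbx q t) fun m => if L < m i then B m a x * g (σ (a * sep p m) x) else 0) ^ 2 ∂μ := by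
    refine intervalIntegral.integral_congr fun a _ => ?_
    refine integral_congr_ae (ae_of_all _ fun x => ?_)
    simp only
    rw [e0]
  rw [e1] at key
  refine key.trans ?_
  have hr : 5 * (1 / (K : ℝ) ^ (q * (d - 1) + 3 * P)) / (1 / (K : ℝ) ^ (q * (d - 1) + P)) = 5 / (K : ℝ) ^ (2 * P) := by
    have h1 : (K : ℝ) ^ (q * (d - 1) + 3 * P) = (K : ℝ) ^ (q * (d - 1) + P) * (K : ℝ) ^ (2 * P) := by
      rw [← pow_add]; congr 1; ring
    rw [h1]
    field_simp
  rw [hr]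
  have e2 : 1 / (1 / (K : ℝ) ^ P) * (C / (K : ℝ) ^ (2 * P) + 5 / (K : ℝ) ^ (2 * P)) = (C + 5) / (K : ℝ) ^ P := by
    have h1 : (K : ℝ) ^ (2 * P) = (K : ℝ) ^ P * (K : ℝ) ^ P := by rw [← pow_add]; congr 1; ring
    rw [h1]
    field_simp
  rw [e2]
  have e3 : (K : ℝ) ^ (q * (d - 1)) * (1 / (K : ℝ) ^ (q * (d - 1) + P)) = 1 / (K : ℝ) ^ P := by
    rw [pow_add]
    field_simp
  rw [e3]
  have e4 : 3 * (1 / (K : ℝ) ^ P) ^ 2 ≤ 3 / (K : ℝ) ^ P := by
    have h1 : (1 : ℝ) ≤ (K : ℝ) ^ P := one_le_pow₀ hK1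
    have h2 : 1 / (K : ℝ) ^ P ≤ 1 := by
      rw [div_le_one (by positivity)]
      exact h1
    have h3 : 0 ≤ 1 / (K : ℝ) ^ P := by positivity
    calc 3 * (1 / (K : ℝ) ^ P) ^ 2 = 3 * ((1 / (K : ℝ) ^ P) * (1 / (K : ℝ) ^ P)) := by ring
      _ ≤ 3 * ((1 / (K : ℝ) ^ P) * 1) := by gcongr
      _ = _ := by ring
  calc 2 * (1 / (K : ℝ) ^ P) + (C + 5) / (K : ℝ) ^ P + 3 * (1 / (K : ℝ) ^ P) ^ 2 ≤
        2 * (1 / (K : ℝ) ^ P) + (C + 5) / (K : ℝ) ^ P + 3 / (K : ℝ) ^ P := by gcongr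
    _ = _ := by ring

lemma rev_flow {X : Type u} [MeasurableSpace X] {μ : Measure X} {σ : ℝ → X → X} (hσ : IsFlow μ σ) :
    IsFlow μ (fun s => σ (-s)) where
  meas := hσ.meas.comp (measurable_fst.neg.prodMk measurable_snd)
  zero := fun x => by simp [hσ.zero]
  add := fun s t x => by
    rw [neg_add, hσ.add]
  mp := fun t => hσ.mp (-t)

lemma rev_nice {X : Type u} [MeasurableSpace X] {σ : ℝ → X → X} {g : X → ℝ} (hg : NiceG σ g) :
    NiceG (fun s => σ (-s)) g := by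
  obtain ⟨hgm, C, h1, h2, h3⟩ := hg
  refine ⟨hgm, C, h1, fun u v x => ?_, fun u v x => ?_⟩
  · refine (h2 (-u) (-v) x).trans (le_of_eq ?_)
    rw [← abs_neg]
    congr 2
    ring
  · have h4 := intervalIntegral.integral_comp_neg (a := u) (b := v) fun r => g (σ r x)
    rw [h4]
    exact h3 _ _ _

/-- the same bound for every sign of the leading coefficient -/
theorem bjcore' (hE : S_ENUM) (hJ : S_JBD.{u}) (hD : S_BD.{u}) {X : Type u} [MeasurableSpace X]
    {μ : Measure X} [IsProbabilityMeasure μ] {σ : ℝ → X → X} (hσ : IsFlow μ σ) {g : X → ℝ} (hg : NiceG σ g)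
    (hg1 : ∀ x, |g x| ≤ 1) {k d : ℕ} {p : Fin k → Polynomial ℝ} (i : Fin k) (hd : 0 < d)
    (hp : (p i).natDegree = d) {B : (Fin k → ℕ) → ℝ → X → ℝ}
    (hBm : ∀ m, Measurable fun q : ℝ × X => B m q.1 q.2) (hB1 : ∀ m a x, |B m a x| ≤ 1)
    (hBl : ∀ m, (∀ l, 1 ≤ m l) → ∀ a a' x, |B m a x - B m a' x| ≤
      1 * ((Finset.univ.sup m : ℕ) : ℝ) ^ (d - 1) * |a - a'|) (j : ℕ) :
    ∃ (C' : ℝ) (T₀ : ℕ), ∀ t : Fin k → ℕ, T₀ ≤ t i → (∀ l, t l ≤ t i) → ∫ a in (1 : ℝ)..2, ∫ x,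
      (ravg (gbx (8 * (k + 1)) t) fun m => if cut j (gbx (8 * (k + 1)) t i) < m i then
        B m a x * g (σ (a * sep p m) x) else 0) ^ 2 ∂μ ≤ C' / ((t i : ℝ) + 1) ^ (k + 1) := by
  have hne : (p i).leadingCoeff ≠ 0 := by
    rw [Ne, Polynomial.leadingCoeff_eq_zero]
    intro h
    rw [h, Polynomial.natDegree_zero] at hp
    omega
  rcases lt_or_gt_of_ne hne with h | h
  · have h1 := bjcore hE hJ hD (rev_flow hσ) (rev_nice hg) hg1 (p := fun l => -p l) i hd
      (by rw [Polynomial.natDegree_neg, hp]) (by rw [Polynomial.leadingCoeff_neg]; linarith)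
      hBm hB1 hBl j
    have e : ∀ (a : ℝ) (m : Fin k → ℕ), -(a * sep (fun l => -p l) m) = a * sep p m := by
      intro a m
      have : sep (fun l => -p l) m = -sep p m := by
        unfold sep
        simp only [Polynomial.eval_neg, sum_neg_distrib]
      rw [this]
      ring
    simp only [e] at h1
    exact h1
  · exact bjcore hE hJ hD hσ hg hg1 i hd hp h hBm hB1 hBl j

lemma ravg_abs_le {k : ℕ} (M : Fin k → ℕ) {h : (Fin k → ℕ) → ℝ} (hh : ∀ m, |h m| ≤ 1) : |ravg M h| ≤ 1 := by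
  unfold ravg
  rcases Nat.eq_zero_or_pos (∏ i, M i) with h0 | h0
  · rw [h0]; simp
  · have hN : (0 : ℝ) < ((∏ i, M i : ℕ) : ℝ) := by exact_mod_cast h0
    rw [abs_mul, abs_of_pos (by positivity : (0 : ℝ) < 1 / ((∏ i, M i : ℕ) : ℝ)), one_div, inv_mul_le_iff₀ hN,
      mul_one]
    refine (abs_sum_le_sum_abs _ _).trans ?_
    calc _ ≤ ∑ m ∈ Pool.Agent.Y957.MC.box M, (1 : ℝ) := sum_le_sum fun m _ => hh m
      _ = _ := by
        rw [sum_const, nsmul_eq_mul, mul_one]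
        unfold Pool.Agent.Y957.MC.box
        rw [Fintype.card_piFinset]
        simp

/-- normalized convergence -/
theorem bccore (hE : S_ENUM) (hJ : S_JBD.{u}) (hD : S_BD.{u}) (hC : S_BGC.{u}) (hR : S_BGR) {X : Type u}
    [MeasurableSpace X] {μ : Measure X} [IsProbabilityMeasure μ] {σ : ℝ → X → X} (hσ : IsFlow μ σ) {g : X → ℝ}
    (hg : NiceG σ g) (hg1 : ∀ x, |g x| ≤ 1) {k d : ℕ} (hk : 0 < k) {p : Fin k → Polynomial ℝ} (hp : SD p d)
    {B : (Fin k → ℕ) → ℝ → X → ℝ} (hBm : ∀ m, Measurable fun q : ℝ × X => B m q.1 q.2)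
    (hB1 : ∀ m a x, |B m a x| ≤ 1)
    (hBl : ∀ m, (∀ l, 1 ≤ m l) → ∀ a a' x, |B m a x - B m a' x| ≤
      1 * ((Finset.univ.sup m : ℕ) : ℝ) ^ (d - 1) * |a - a'|) :
    ∀ᵐ a ∂(volume.restrict (Set.Icc (1 : ℝ) 2)), ∀ᵐ x ∂μ,
      Tendsto (fun M => ravg M fun m => B m a x * g (σ (a * sep p m) x)) atTop (nhds 0) := by
  rw [← restrict_Ioc_eq_restrict_Icc]
  have hgm := hg.1
  have hcm : ∀ m : Fin k → ℕ, Measurable fun q : ℝ × X => B m q.1 q.2 * g (σ (q.1 * sep p m) q.2) := fun m =>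
    (hBm m).mul (hgm.comp (hσ.meas.comp ((measurable_fst.mul_const _).prodMk measurable_snd)))
  have hc1 : ∀ (m : Fin k → ℕ) (a : ℝ) (x : X), |B m a x * g (σ (a * sep p m) x)| ≤ 1 := fun m a x => by
    rw [abs_mul]
    exact mul_le_one₀ (hB1 _ _ _) (abs_nonneg _) (hg1 _)
  have hall : ∀ (i : Fin k) (j : ℕ), ∀ᵐ ω ∂((volume.restrict (Set.Ioc (1 : ℝ) 2)).prod μ), ∀ η : ℝ, 0 < η →
      ∃ T₁ : ℕ, ∀ t : Fin k → ℕ, T₁ ≤ t i → (∀ l, t l ≤ t i) →
      |ravg (gbx (8 * (k + 1)) t) (fun m => if cut j (gbx (8 * (k + 1)) t i) < m i then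
        B m ω.1 ω.2 * g (σ (ω.1 * sep p m) ω.2) else 0)| ≤ η := by
    intro i j
    obtain ⟨C', T₀, hT⟩ := bjcore' hE hJ hD hσ hg hg1 i hp.1 (hp.2 i) hBm hB1 hBl j
    have hmeas : ∀ t : Fin k → ℕ, Measurable fun q : ℝ × X => ravg (gbx (8 * (k + 1)) t) (fun m =>
        if cut j (gbx (8 * (k + 1)) t i) < m i then B m q.1 q.2 * g (σ (q.1 * sep p m) q.2) else 0) := by
      intro t
      unfold ravg
      refine measurable_const.mul (Finset.measurable_sum _ fun m _ => ?_)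
      beta_reduce
      split_ifs
      · exact hcm m
      · exact measurable_const
    have hbd : ∀ (t : Fin k → ℕ) (q : ℝ × X), |ravg (gbx (8 * (k + 1)) t) (fun m =>
        if cut j (gbx (8 * (k + 1)) t i) < m i then B m q.1 q.2 * g (σ (q.1 * sep p m) q.2) else 0)| ≤ 1 := by
      intro t q
      refine ravg_abs_le _ fun m => ?_
      split_ifs
      · exact hc1 m q.1 q.2
      · simp
    refine hC (ℝ × X) ((volume.restrict (Set.Ioc (1 : ℝ) 2)).prod μ) k i _ C' T₀ hmeas hbd ?_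
    intro t h1 h2
    refine le_trans (le_of_eq ?_) (hT t h1 h2)
    rw [intervalIntegral.integral_of_le (by norm_num)]
    rw [integral_prod]
    refine Integrable.of_bound (C := 1) ((hmeas t).pow_const 2).aestronglyMeasurable (ae_of_all _ fun q => ?_)
    rw [Real.norm_eq_abs, abs_pow]
    exact pow_le_one₀ (abs_nonneg _) (hbd t q)
  have h1 : ∀ᵐ ω ∂((volume.restrict (Set.Ioc (1 : ℝ) 2)).prod μ),
      Tendsto (fun M => ravg M fun m => B m ω.1 ω.2 * g (σ (ω.1 * sep p m) ω.2)) atTop (nhds 0) := by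
    have h2 := ae_all_iff.2 fun i => ae_all_iff.2 fun j => hall i j
    filter_upwards [h2] with ω hω
    exact hR k (8 * (k + 1)) (fun m => B m ω.1 ω.2 * g (σ (ω.1 * sep p m) ω.2)) hk (by omega)
      (fun m => hc1 m ω.1 ω.2) (fun i j η hη => hω i j η hη)
  exact Measure.ae_ae_of_ae_prod h1

theorem t_BCORE (hE : S_ENUM) (hJ : S_JBD.{u}) (hD : S_BD.{u}) (hC : S_BGC.{u}) (hR : S_BGR) : S_BCORE.{u} := by
  intro X _ μ _ σ g k d p B hk hσ hg hp hBn
  obtain ⟨hgm, C1, hg1, hgl, hgp⟩ := hg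
  obtain ⟨hBm, C2, hB2, hBl⟩ := hBn
  obtain ⟨C, hC'⟩ : ∃ C : ℝ, C = max (max C1 C2) 1 := ⟨_, rfl⟩
  have hC1 : C1 ≤ C := hC' ▸ (le_max_left _ _).trans (le_max_left _ _)
  have hC2 : C2 ≤ C := hC' ▸ (le_max_right _ _).trans (le_max_left _ _)
  have hC0 : 0 < C := lt_of_lt_of_le one_pos (hC' ▸ le_max_right _ _)
  have hdiv : ∀ z : ℝ, |z| ≤ C → |z / C| ≤ 1 := fun z hz => by
    rw [abs_div, abs_of_pos hC0, div_le_one hC0]; exact hz
  have hreal : ∀ B' : (Fin k → ℕ) → ℝ → X → ℝ, (∀ m, Measurable fun q : ℝ × X => B' m q.1 q.2) →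
      (∀ m a x, |B' m a x| ≤ C) →
      (∀ m, (∀ l, 1 ≤ m l) → ∀ a a' x, |B' m a x - B' m a' x| ≤
        C * ((Finset.univ.sup m : ℕ) : ℝ) ^ (d - 1) * |a - a'|) →
      ∀ᵐ a ∂(volume.restrict (Set.Icc (1 : ℝ) 2)), ∀ᵐ x ∂μ,
      Tendsto (fun M => ravg M fun m => B' m a x * g (σ (a * sep p m) x)) atTop (nhds 0) := by
    intro B' hm hb hl
    have h1 := bccore hE hJ hD hC hR hσ (g := fun x => g x / C)
      ⟨hgm.div_const C, 1, fun x => hdiv _ ((hg1 x).trans hC1), fun u v x => by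
        rw [← sub_div, abs_div, abs_of_pos hC0, div_le_iff₀ hC0, one_mul, mul_comm]
        refine (hgl u v x).trans ?_
        gcongr, fun u v x => by
        rw [intervalIntegral.integral_div]
        exact hdiv _ ((hgp u v x).trans hC1)⟩
      (fun x => hdiv _ ((hg1 x).trans hC1)) hk hp (B := fun m a x => B' m a x / C)
      (fun m => (hm m).div_const C) (fun m a x => hdiv _ (hb m a x))
      (fun m hm1 a a' x => by
        rw [← sub_div, abs_div, abs_of_pos hC0, div_le_iff₀ hC0]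
        refine (hl m hm1 a a' x).trans (le_of_eq ?_)
        ring)
    filter_upwards [h1] with a ha
    filter_upwards [ha] with x hx
    have h2 := hx.const_mul (C * C)
    rw [mul_zero] at h2
    refine h2.congr fun M => ?_
    unfold ravg
    rw [← mul_assoc, mul_comm (C * C), mul_assoc, mul_sum]
    congr 1
    refine sum_congr rfl fun n _ => ?_
    field_simp
  have hre := hreal (fun m a x => (B m a x).re) (fun m => Complex.measurable_re.comp (hBm m))
    (fun m a x => (Complex.abs_re_le_norm _).trans ((hB2 m a x).trans hC2))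
    (fun m hm a a' x => by
      rw [← Complex.sub_re]
      refine (Complex.abs_re_le_norm _).trans ((hBl m hm a a' x).trans ?_)
      gcongr)
  have him := hreal (fun m a x => (B m a x).im) (fun m => Complex.measurable_im.comp (hBm m))
    (fun m a x => (Complex.abs_im_le_norm _).trans ((hB2 m a x).trans hC2))
    (fun m hm a a' x => by
      rw [← Complex.sub_im]
      refine (Complex.abs_im_le_norm _).trans ((hBl m hm a a' x).trans ?_)
      gcongr)
  filter_upwards [hre, him] with a ha1 ha2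
  filter_upwards [ha1, ha2] with x hx1 hx2
  have h3 : Tendsto (fun M : Fin k → ℕ => ((ravg M fun m => (B m a x).re * g (σ (a * sep p m) x) : ℝ) : ℂ))
      atTop (nhds ((0 : ℝ) : ℂ)) := (Complex.continuous_ofReal.tendsto 0).comp hx1
  have h4 : Tendsto (fun M : Fin k → ℕ => ((ravg M fun m => (B m a x).im * g (σ (a * sep p m) x) : ℝ) : ℂ))
      atTop (nhds ((0 : ℝ) : ℂ)) := (Complex.continuous_ofReal.tendsto 0).comp hx2
  have h5 := h3.add (h4.mul_const Complex.I)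
  rw [Complex.ofReal_zero, zero_mul, add_zero] at h5
  refine h5.congr fun M => ?_
  unfold ravg bavg
  push_cast
  rw [mul_assoc, ← mul_add, sum_mul, ← sum_add_distrib]
  congr 1
  refine sum_congr rfl fun m _ => ?_
  conv_rhs => rw [← Complex.re_add_im (B m a x)]
  ring

end Pool.Agent.R497.TB
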