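import Pool.Agent.R497.TD.Defs
import Pool.Agent.Y957.MC.Spec2

/-!
Project TB (helper497, hard problem MP_f720ae_an): the multi-parameter version of project TD, averages over
unrestricted boxes `[1, M_1] × ... × [1, M_k]`, `min M_i → ∞`. Statements; proofs in NOTES.md.
-/

set_option autoImplicit false

namespace Pool.Agent.R497.TB

open MeasureTheory Filter Finset
open Pool.Agent.Y957.MC (IsFlow flowInv smo box bavg)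
open Pool.Agent.R497.TD (NiceG)

universe u

/-- the real average over the box -/
noncomputable def ravg {k : ℕ} (M : Fin k → ℕ) (h : (Fin k → ℕ) → ℝ) : ℝ :=
  (1 / ((∏ i, M i : ℕ) : ℝ)) * ∑ m ∈ box M, h m

/-- separable polynomials in `k` variables -/
noncomputable def sep {k : ℕ} (p : Fin k → Polynomial ℝ) (m : Fin k → ℕ) : ℝ := ∑ i, (p i).eval (m i : ℝ)

/-- all parts have degree exactly `d` (the leading coefficients may have any signs) -/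
def SD {k : ℕ} (p : Fin k → Polynomial ℝ) (d : ℕ) : Prop := 0 < d ∧ ∀ i, (p i).natDegree = d

/-- the grid boxes -/
def gbx {k : ℕ} (q : ℕ) (t : Fin k → ℕ) : Fin k → ℕ := fun l => (t l + 1) ^ q

/-- the cutoff `⌊M / (j + 1)⌋` -/
noncomputable def cut (j M : ℕ) : ℕ := ⌊(1 / ((j : ℝ) + 1)) * (M : ℝ)⌋₊

/-- (ENUM) enumeration of a box by lines in the direction `i` -/
def S_ENUM : Prop := ∀ (k : ℕ) (i : Fin k) (M : Fin k → ℕ), (∀ l, 0 < M l) → ∃ (S : ℕ) (en : ℕ → Fin k → ℕ),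
    0 < S ∧ S * M i = ∏ l, M l ∧
    (∀ u w, u < S → w < M i → en (u * M i + w) = Function.update (en (u * M i)) i (w + 1)) ∧
    (∀ n, n < S * M i → ∀ l, 1 ≤ en n l ∧ en n l ≤ M l) ∧
    ∀ F : (Fin k → ℕ) → ℝ, ∑ n ∈ range (S * M i), F (en n) = ∑ m ∈ box M, F m

/-- (BBAD) pairs of points which are close -/
def S_BBAD : Prop := ∀ (S Ri vL : ℕ) (q : ℕ → ℝ) (A Y : ℝ), 0 < Ri → 0 < A → 0 ≤ Y →
    (∀ u v, u < S → vL < v → v + 1 < Ri → A ≤ q (u * Ri + (v + 1)) - q (u * Ri + v)) →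
    (((range (S * Ri) ×ˢ range (S * Ri)).filter fun p => vL < p.1 % Ri ∧ vL < p.2 % Ri ∧ |q p.1 - q p.2| < Y).card : ℝ)
      ≤ ((S * Ri : ℕ) : ℝ) * (S * (2 * Y / A + 1))

/-- (BGR) deterministic: from the grid boxes with a cutoff to all boxes -/
def S_BGR : Prop := ∀ (k q : ℕ) (c : (Fin k → ℕ) → ℝ), 0 < k → 0 < q → (∀ m, |c m| ≤ 1) →
    (∀ (i : Fin k) (j : ℕ) (η : ℝ), 0 < η → ∃ T₁ : ℕ, ∀ t : Fin k → ℕ, T₁ ≤ t i → (∀ l, t l ≤ t i) →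
      |ravg (gbx q t) (fun m => if cut j (gbx q t i) < m i then c m else 0)| ≤ η) →
    Tendsto (fun M => ravg M c) atTop (nhds 0)

/-- (BGC) Borel-Cantelli for the grid boxes with longest side `i` -/
def S_BGC : Prop := ∀ (Ω : Type u) [MeasurableSpace Ω] (ν : Measure Ω) [IsFiniteMeasure ν] (k : ℕ) (i : Fin k)
    (D : (Fin k → ℕ) → Ω → ℝ) (C : ℝ) (T₀ : ℕ), (∀ t, Measurable (D t)) → (∀ t ω, |D t ω| ≤ 1) →
    (∀ t : Fin k → ℕ, T₀ ≤ t i → (∀ l, t l ≤ t i) → ∫ ω, (D t ω) ^ 2 ∂ν ≤ C / ((t i : ℝ) + 1) ^ (k + 1)) →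
    ∀ᵐ ω ∂ν, ∀ η : ℝ, 0 < η → ∃ T₁ : ℕ, ∀ t : Fin k → ℕ, T₁ ≤ t i → (∀ l, t l ≤ t i) → |D t ω| ≤ η

/-- nice weights: Lipschitz in `a` with constant `C (max m_i) ^ (d - 1)` -/
def NiceWb {X : Type u} [MeasurableSpace X] {k : ℕ} (d : ℕ) (B : (Fin k → ℕ) → ℝ → X → ℂ) : Prop :=
    (∀ m, Measurable fun q : ℝ × X => B m q.1 q.2) ∧ ∃ C : ℝ, (∀ m a x, ‖B m a x‖ ≤ C) ∧
    ∀ m, (∀ l, 1 ≤ m l) → ∀ a a' x, ‖B m a x - B m a' x‖ ≤ C * ((Finset.univ.sup m : ℕ) : ℝ) ^ (d - 1) * |a - a'|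

/-- (BD) mean square of the products `g(x_n) g(σ (δ Q n) x_n)` for small `δ`, boxes enumerated by lines -/
def S_BD : Prop := ∀ (X : Type u) [MeasurableSpace X] (μ : Measure X) [IsProbabilityMeasure μ] (σ : ℝ → X → X)
    (g : X → ℝ) (P : Polynomial ℝ) (k j : ℕ), IsFlow μ σ → NiceG σ g → (∀ x, |g x| ≤ 1) → 0 < P.natDegree →
    0 < P.leadingCoeff → ∃ (C : ℝ) (K₀ : ℕ), 0 ≤ C ∧ ∀ (K S : ℕ) (Q : ℕ → ℝ) (δ : ℝ), K₀ ≤ K → 0 < S →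
    (∀ u w, u < S → w < K ^ (8 * (k + 1)) →
      Q (u * K ^ (8 * (k + 1)) + w) = Q (u * K ^ (8 * (k + 1))) + (P.eval ((w : ℝ) + 1) - P.eval 1)) →
    1 / (K : ℝ) ^ (8 * (k + 1) * (P.natDegree - 1) + 3 * (k + 1)) ≤ |δ| →
    |δ| ≤ 1 / (K : ℝ) ^ (8 * (k + 1) * (P.natDegree - 1) + (k + 1)) →
    ∫ a in (1 / 2 : ℝ)..3, ∫ x, ((1 / ((S * K ^ (8 * (k + 1)) : ℕ) : ℝ)) * ∑ n ∈ range (S * K ^ (8 * (k + 1))),
      (if cut j (K ^ (8 * (k + 1))) ≤ n % K ^ (8 * (k + 1)) then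
        g (σ (a * Q n) x) * g (σ (δ * Q n) (σ (a * Q n) x)) else 0)) ^ 2 ∂μ ≤ C / (K : ℝ) ^ (2 * (k + 1))

/-- (BCORE) the main case, `a` in `[1, 2]` -/
def S_BCORE : Prop := ∀ (X : Type u) [MeasurableSpace X] (μ : Measure X) [IsProbabilityMeasure μ] (σ : ℝ → X → X)
    (g : X → ℝ) (k d : ℕ) (p : Fin k → Polynomial ℝ) (B : (Fin k → ℕ) → ℝ → X → ℂ), 0 < k → IsFlow μ σ → NiceG σ g →
    SD p d → NiceWb d B → ∀ᵐ a ∂(volume.restrict (Set.Icc (1 : ℝ) 2)), ∀ᵐ x ∂μ,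
      Tendsto (fun M => bavg M fun m => B m a x * (g (σ (a * sep p m) x) : ℂ)) atTop (nhds 0)

/-- (BCORER) the same for almost all real `a` -/
def S_BCORER : Prop := ∀ (X : Type u) [MeasurableSpace X] (μ : Measure X) [IsProbabilityMeasure μ] (σ : ℝ → X → X)
    (g : X → ℝ) (k d : ℕ) (p : Fin k → Polynomial ℝ) (B : (Fin k → ℕ) → ℝ → X → ℂ), 0 < k → IsFlow μ σ → NiceG σ g →
    SD p d → NiceWb d B → ∀ᵐ a : ℝ, ∀ᵐ x ∂μ,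
      Tendsto (fun M => bavg M fun m => B m a x * (g (σ (a * sep p m) x) : ℂ)) atTop (nhds 0)

/-- good weights: approximated in the mean by nice ones -/
def GoodWb {X : Type u} [MeasurableSpace X] {k : ℕ} (μ : Measure X) (d : ℕ) (B : (Fin k → ℕ) → ℝ → X → ℂ) : Prop :=
    (∃ C : ℝ, ∀ m, ∀ᵐ a : ℝ, ∀ᵐ x ∂μ, ‖B m a x‖ ≤ C) ∧
    ∃ Bk : ℕ → (Fin k → ℕ) → ℝ → X → ℂ, (∀ k, NiceWb d (Bk k)) ∧
    ∀ᵐ a : ℝ, ∀ᵐ x ∂μ, ∀ ε : ℝ, 0 < ε → ∃ k, ∀ᶠ M in atTop, ravg M (fun m => ‖B m a x - Bk k m a x‖) ≤ ε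

/-- (BSM) second moment without smoothness: `w = e - smo T e` -/
def S_BSM : Prop := ∀ (X : Type u) [MeasurableSpace X] (μ : Measure X) [IsProbabilityMeasure μ] (σ : ℝ → X → X)
    (e : X → ℝ) (Q : ℕ → ℝ) (N : ℕ) (G : Finset ℕ) (Near : Finset (ℕ × ℕ)) (T Y : ℝ), IsFlow μ σ → Measurable e →
    (∀ x, 0 ≤ e x ∧ e x ≤ 1) → 0 < N → 0 < T → 0 < Y →
    (∀ n n', n < N → n' < N → n ∈ G → n' ∈ G → (n, n') ∉ Near → Y ≤ |Q n - Q n'|) →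
    ∫ a in (1 : ℝ)..2, ∫ x, ((1 / (N : ℝ)) * ∑ n ∈ range N,
      if n ∈ G then e (σ (a * Q n) x) - smo σ e T (σ (a * Q n) x) else 0) ^ 2 ∂μ ≤
      (Near.card : ℝ) / (N : ℝ) ^ 2 + 4 * T / Y

/-- (BCT1) smoothing along the flow at the scale `T` does not change the averages over grid boxes -/
def S_BCT1 : Prop := ∀ (X : Type u) [MeasurableSpace X] (μ : Measure X) [IsProbabilityMeasure μ] (τ : ℝ → X → X)
    (e : X → ℝ) (k d : ℕ) (p : Fin k → Polynomial ℝ), IsFlow μ τ → Measurable e → (∀ x, 0 ≤ e x ∧ e x ≤ 1) → 0 < k →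
    SD p d → ∀ᵐ a ∂(volume.restrict (Set.Icc (1 : ℝ) 2)), ∀ᵐ x ∂μ, ∀ (i : Fin k) (j : ℕ) (η : ℝ), 0 < η →
      ∃ T₁ : ℕ, ∀ t : Fin k → ℕ, T₁ ≤ t i → (∀ l, t l ≤ t i) →
      |ravg (gbx (8 * (k + 1)) t) (fun m => if cut j (gbx (8 * (k + 1)) t i) < m i then
        e (τ (a * sep p m) x) - smo τ e (((t i : ℝ) + 1) ^ (8 * (k + 1) * d - 2 * (k + 1))) (τ (a * sep p m) x)
          else 0)| ≤ η

/-- (BCT2) deterministic: the averages of a nonnegative function over boxes are controlled by its mean value -/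
def S_BCT2 : Prop := ∀ (k d : ℕ) (p : Fin k → Polynomial ℝ), 0 < k → SD p d → ∃ K : ℝ → ℝ, (∀ ε, 0 < K ε) ∧
    ∀ (F : ℝ → ℝ) (L a : ℝ), Measurable F → (∀ u, 0 ≤ F u ∧ F u ≤ 1) → 1 ≤ a → a ≤ 2 →
    Tendsto (fun V : ℝ => (1 / V) * ∫ u in (-V)..V, F u) atTop (nhds (2 * L)) →
    (∀ (i : Fin k) (j : ℕ) (η : ℝ), 0 < η → ∃ T₁ : ℕ, ∀ t : Fin k → ℕ, T₁ ≤ t i → (∀ l, t l ≤ t i) →
      |ravg (gbx (8 * (k + 1)) t) (fun m => if cut j (gbx (8 * (k + 1)) t i) < m i then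
        F (a * sep p m) - (1 / ((t i : ℝ) + 1) ^ (8 * (k + 1) * d - 2 * (k + 1))) *
          ∫ r in (0 : ℝ)..(((t i : ℝ) + 1) ^ (8 * (k + 1) * d - 2 * (k + 1))), F (r + a * sep p m) else 0)| ≤ η) →
    ∀ ε : ℝ, 0 < ε → ∀ᶠ M in atTop, ravg M (fun m => F (a * sep p m)) ≤ ε + K ε * L

/-- (BCTRL) averages of a nonnegative function at the times `a p(m)` over boxes -/
def S_BCTRL : Prop := ∀ (k d : ℕ) (p : Fin k → Polynomial ℝ), 0 < k → SD p d → ∃ K : ℝ → ℝ, (∀ ε, 0 < K ε) ∧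
    ∀ (X : Type u) [MeasurableSpace X] (μ : Measure X) [IsProbabilityMeasure μ] (τ : ℝ → X → X) (e : X → ℝ),
    IsFlow μ τ → Measurable e → (∀ x, 0 ≤ e x ∧ e x ≤ 1) → ∀ᵐ a : ℝ, ∀ᵐ x ∂μ, ∀ ε : ℝ, 0 < ε →
      ∀ᶠ M in atTop, ravg M (fun m => e (τ (a * sep p m) x)) ≤ ε + K ε * (μ[e | flowInv τ]) x

/-- (APXU) as `Pool.Agent.R497.TD.S_APXG`, with a uniform bound -/
def S_APXU : Prop := ∀ (X : Type u) [MeasurableSpace X] (μ : Measure X) [IsProbabilityMeasure μ] (σ : ℝ → X → X)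
    (g : X → ℝ), IsFlow μ σ → Measurable g → (∃ C, ∀ x, |g x| ≤ C) → ∃ (gb : X → ℝ) (gk : ℕ → X → ℝ),
    Measurable gb ∧ (∃ C, ∀ x, |gb x| ≤ C) ∧ (∀ t x, gb (σ t x) = gb x) ∧ gb =ᵐ[μ] μ[g | flowInv σ] ∧
    (∃ C, ∀ k x, |gk k x| ≤ C) ∧ (∀ k, NiceG σ (gk k)) ∧
    ∀ᵐ x ∂μ, ∀ ε : ℝ, 0 < ε → ∃ k, (μ[fun y => |g y - gb y - gk k y| | flowInv σ]) x < ε

/-- (BFG) one factor of lower degree is a good weight -/
def S_BFG : Prop := ∀ (X : Type u) [MeasurableSpace X] (μ : Measure X) [IsProbabilityMeasure μ] (τ : ℝ → X → X)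
    (f : X → ℂ) (k d d' : ℕ) (p : Fin k → Polynomial ℝ), 0 < k → IsFlow μ τ → AEStronglyMeasurable f μ →
    (∃ C : ℝ, ∀ᵐ x ∂μ, ‖f x‖ ≤ C) → SD p d' → d' < d → GoodWb μ d (fun m a x => f (τ (a * sep p m) x))

/-- (BPROD) products of good weights -/
def S_BPROD : Prop := ∀ (X : Type u) [MeasurableSpace X] (μ : Measure X) [IsProbabilityMeasure μ] (k d : ℕ)
    (B F : (Fin k → ℕ) → ℝ → X → ℂ), GoodWb μ d B → GoodWb μ d F → GoodWb μ d (fun m a x => B m a x * F m a x)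

/-- (BWG) weights which do not depend on `a` -/
def S_BWG : Prop := ∀ (X : Type u) [MeasurableSpace X] (μ : Measure X) [IsProbabilityMeasure μ] (k d : ℕ)
    (W : (Fin k → ℕ) → X → ℂ), (∀ m, AEStronglyMeasurable (W m) μ) → (∃ C : ℝ, ∀ m, ∀ᵐ x ∂μ, ‖W m x‖ ≤ C) →
    GoodWb μ d (fun m _ x => W m x)

/-- (BTOP) the factor of highest degree decouples -/
def S_BTOP : Prop := ∀ (X : Type u) [MeasurableSpace X] (μ : Measure X) [IsProbabilityMeasure μ] (σ : ℝ → X → X)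
    (g : X → ℂ) (k d : ℕ) (p : Fin k → Polynomial ℝ) (B : (Fin k → ℕ) → ℝ → X → ℂ), 0 < k → IsFlow μ σ →
    AEStronglyMeasurable g μ → (∃ C : ℝ, ∀ᵐ x ∂μ, ‖g x‖ ≤ C) → SD p d → GoodWb μ d B → ∀ᵐ a : ℝ, ∀ᵐ x ∂μ,
      Tendsto (fun M => bavg M fun m => B m a x * (g (σ (a * sep p m) x) - (μ[g | flowInv σ]) x)) atTop (nhds 0)

/-- (BFIN) all degrees distinct -/
def S_BFIN : Prop := ∀ (X : Type u) [MeasurableSpace X] (μ : Measure X) [IsProbabilityMeasure μ] (k r : ℕ)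
    (τ : Fin r → ℝ → X → X) (f : Fin r → X → ℂ) (p : Fin r → Fin k → Polynomial ℝ) (d : Fin r → ℕ)
    (W : (Fin k → ℕ) → X → ℂ), 0 < k → (∀ j, IsFlow μ (τ j)) → (∀ j, AEStronglyMeasurable (f j) μ) →
    (∀ j, ∃ C : ℝ, ∀ᵐ x ∂μ, ‖f j x‖ ≤ C) → (∀ j, SD (p j) (d j)) → Function.Injective d →
    (∀ m, AEStronglyMeasurable (W m) μ) → (∃ C : ℝ, ∀ m, ∀ᵐ x ∂μ, ‖W m x‖ ≤ C) → ∀ᵐ a : ℝ, ∀ᵐ x ∂μ,
      Tendsto (fun M => bavg M (fun m => W m x * ∏ j, f j (τ j (a * sep (p j) m) x)) -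
        (∏ j, (μ[f j | flowInv (τ j)]) x) * bavg M (fun m => W m x)) atTop (nhds 0)

end Pool.Agent.R497.TB
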