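import Pool.Agent.R497.TB.Defs
import Pool.Agent.Y86.MC.NiceC

set_option autoImplicit false

/-! Enumeration of a box by lines. -/

namespace Pool.Agent.R497.TB

open MeasureTheory Filter
open Pool.Agent.Y957.MC (box)
open Finset hiding box
open Pool.Agent.Y86.MC (mem_box card_box sum_box card_split)

theorem t_ENUM : S_ENUM := by
  classical
  intro k i M hM
  set S : ℕ := (box (Function.update M i 1)).card with hS
  have hSM : S * M i = ∏ l, M l := (card_split i M).symm
  have hP : 0 < ∏ l, M l := Finset.prod_pos fun l _ => hM l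
  have hS0 : 0 < S := by
    rcases Nat.eq_zero_or_pos S with h | h
    · rw [h, zero_mul] at hSM
      omega
    · exact h
  have hMi := hM i
  let e := (box (Function.update M i 1)).equivFin
  let en : ℕ → Fin k → ℕ := fun n => if h : n / M i < S then
    Function.update (e.symm ⟨n / M i, h⟩ : Fin k → ℕ) i (n % M i + 1) else fun _ => 1
  have hen : ∀ u w (hu : u < S), w < M i → en (u * M i + w) =
      Function.update (e.symm ⟨u, hu⟩ : Fin k → ℕ) i (w + 1) := by
    intro u w hu hw
    have h1 : (u * M i + w) / M i = u := by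
      rw [mul_comm, Nat.mul_add_div hMi, Nat.div_eq_of_lt hw, add_zero]
    have h2 : (u * M i + w) % M i = w := by
      rw [mul_comm, Nat.mul_add_mod, Nat.mod_eq_of_lt hw]
    simp only [en]
    rw [dif_pos (by rw [h1]; exact hu), h2]
    have h3 : (⟨(u * M i + w) / M i, by rw [h1]; exact hu⟩ : Fin S) = ⟨u, hu⟩ := Fin.ext h1
    exact congrArg (fun v : Fin S => Function.update (e.symm v : Fin k → ℕ) i (w + 1)) h3
  refine ⟨S, en, hS0, hSM, ?_, ?_, ?_⟩
  · intro u w hu hw
    have h1 := hen u 0 hu hMi
    rw [add_zero] at h1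
    rw [hen u w hu hw, h1, Function.update_idem]
  · intro n hn l
    have hu : n / M i < S := (Nat.div_lt_iff_lt_mul hMi).2 hn
    have hw : n % M i < M i := Nat.mod_lt _ hMi
    simp only [en]
    rw [dif_pos hu]
    by_cases hl : l = i
    · subst hl
      rw [Function.update_self]
      omega
    · rw [Function.update_of_ne hl]
      have h1 := mem_box.1 (e.symm ⟨n / M i, hu⟩).2 l
      rw [Function.update_of_ne hl] at h1
      exact h1
  · intro F
    rw [sum_box i M]
    have h1 : ∀ T : ℕ, T ≤ S → ∑ n ∈ range (T * M i), F (en n) =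
        ∑ u ∈ range T, ∑ w ∈ range (M i), F (en (u * M i + w)) := by
      intro T
      induction T with
      | zero => intro _; simp
      | succ T ih =>
        intro h
        rw [Nat.succ_mul, Finset.sum_range_add, ih (by omega), Finset.sum_range_succ]
    rw [h1 S le_rfl]
    have h2 : ∑ m ∈ box (Function.update M i 1), ∑ n ∈ Icc 1 (M i), F (Function.update m i n) =
        ∑ v : Fin S, ∑ n ∈ Icc 1 (M i), F (Function.update (e.symm v : Fin k → ℕ) i n) := by
      rw [← Finset.sum_coe_sort]
      exact (Equiv.sum_comp e.symm fun m : box (Function.update M i 1) =>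
        ∑ n ∈ Icc 1 (M i), F (Function.update (m : Fin k → ℕ) i n)).symm
    rw [h2, Finset.sum_range]
    refine Finset.sum_congr rfl fun v _ => ?_
    have h3 : ∑ n ∈ Icc 1 (M i), F (Function.update (e.symm v : Fin k → ℕ) i n) =
        ∑ w ∈ range (M i), F (Function.update (e.symm v : Fin k → ℕ) i (w + 1)) := by
      rw [Finset.range_eq_Ico, Finset.sum_Ico_add' (fun n => F (Function.update (e.symm v : Fin k → ℕ) i n)) 0 (M i) 1,
        zero_add]
      rfl
    rw [h3]
    refine Finset.sum_congr rfl fun w hw => ?_
    rw [hen v w v.2 (mem_range.1 hw)]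

end Pool.Agent.R497.TB
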