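import Pool.Agent.R497.TB.Defs
import Pool.Agent.R725.TBBFIN

set_option autoImplicit false

/-! Decoupling of the factor of highest degree and averages over boxes along polynomials of distinct degrees. -/

namespace Pool.Agent.R497.TB

open MeasureTheory Filter Finset
open Pool.Agent.Y957.MC (IsFlow flowInv smo box bavg)

universe u

/-- the factor of highest degree decouples -/
theorem bdec (h1 : S_BTOP.{u}) (h2 : S_BFG.{u}) (h3 : S_BPROD.{u}) (h4 : S_BWG.{u}) {X : Type u} [MeasurableSpace X]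
    {μ : Measure X} [IsProbabilityMeasure μ] {k r : ℕ} {τ : Fin r → ℝ → X → X} {f : Fin r → X → ℂ}
    {p : Fin r → Fin k → Polynomial ℝ} {d : Fin r → ℕ} (hk : 0 < k) (hτ : ∀ j, IsFlow μ (τ j))
    (hf : ∀ j, AEStronglyMeasurable (f j) μ) (hfb : ∀ j, ∃ C : ℝ, ∀ᵐ x ∂μ, ‖f j x‖ ≤ C)
    (hP : ∀ j, SD (p j) (d j)) {σ : ℝ → X → X} {q : Fin k → Polynomial ℝ} {e : ℕ} {g : X → ℂ}
    {W : (Fin k → ℕ) → X → ℂ} (hσ : IsFlow μ σ) (hg : AEStronglyMeasurable g μ)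
    (hgb : ∃ C : ℝ, ∀ᵐ x ∂μ, ‖g x‖ ≤ C) (hQ : SD q e) (hPQ : ∀ j, d j < e) (hW : ∀ m, AEStronglyMeasurable (W m) μ)
    (hWb : ∃ C : ℝ, ∀ m, ∀ᵐ x ∂μ, ‖W m x‖ ≤ C) : ∀ᵐ a : ℝ, ∀ᵐ x ∂μ,
      Tendsto (fun M => bavg M fun m => (W m x * ∏ j, f j (τ j (a * sep (p j) m) x)) *
        (g (σ (a * sep q m) x) - (μ[g | flowInv σ]) x)) atTop (nhds 0) :=
  h1 X μ σ g k e q _ hk hσ hg hgb hQ
    (Pool.Agent.R725.TB.bgood h2 h3 h4 μ hk hτ hf hfb hP hW hWb e univ fun j _ => hPQ j)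

lemma bavg_sub_const {k : ℕ} (M : Fin k → ℕ) (φ W : (Fin k → ℕ) → ℂ) (c : ℂ) :
    bavg M (fun m => W m * φ m) - c * bavg M W = bavg M fun m => W m * (φ m - c) := by
  unfold bavg
  have e : ∑ m ∈ box M, W m * (φ m - c) = ∑ m ∈ box M, W m * φ m - c * ∑ m ∈ box M, W m := by
    rw [mul_sum, ← sum_sub_distrib]
    refine sum_congr rfl fun m _ => ?_
    ring
  rw [e]
  ring

lemma bavg_one {k : ℕ} {M : Fin k → ℕ} (hM : ∀ l, 1 ≤ M l) : bavg M (fun _ => 1) = 1 := by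
  unfold bavg
  have hc : (box M).card = ∏ i, M i := by
    unfold Pool.Agent.Y957.MC.box
    rw [Fintype.card_piFinset]
    simp
  rw [sum_const, hc, nsmul_eq_mul, mul_one]
  have hne : ((∏ i, M i : ℕ) : ℂ) ≠ 0 := by
    have : (∏ i, M i) ≠ 0 := Finset.prod_ne_zero_iff.2 fun i _ => by have := hM i; omega
    exact_mod_cast this
  field_simp

end Pool.Agent.R497.TB
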